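import Pool.Agent.Helper43.Kempe.Small

/-!
# Kempe equivalence of 5-colourings of triangulated toroidal grids with a short side

Main result: if `a, b ≥ 3` and one of `a`, `b` is at most `5`, then any two 5-colourings of the
triangulated toroidal grid `T[a × b]` are Kempe equivalent.
-/

namespace Pool.Agent.Results.MP_df4e53_co.ShortSide

open Pool.Agent.Helper43.Kempe

theorem result (a b : ℕ) (ha : 3 ≤ a) (hb : 3 ≤ b) (hab : a ≤ 5 ∨ b ≤ 5)
    (φ ψ : (TriGrid a b).Coloring (Fin 5)) : KempeEquivalent φ ψ :=
  (joined_small ha hb hab).kempe (by omega) (by omega) φ ψ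

end Pool.Agent.Results.MP_df4e53_co.ShortSide
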